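import Pool.Agent.H80.LD.Targets

/-!
# MP_47c37b, board ldp, row DIR: the directions
-/

set_option autoImplicit false

open MeasureTheory SchwartzMap Filter Topology
open scoped ENNReal ContDiff InnerProductSpace

namespace Pool.Agent.H12.LD

open Pool.Agent.H80.LD
open Pool.Agent.H43.DPC (V S SD moment trans rot IsMAO Diag)

/-- a gap below an upper set of values -/
lemma gap {n : ℕ} (a : Fin n → ℝ) (R : Finset (Fin n)) (h : ∀ i ∈ R, ∀ k ∉ R, a k < a i) :
    ∃ c δ : ℝ, 0 < δ ∧ (∀ k ∉ R, a k ≤ c - δ) ∧ ∀ i ∈ R, c + δ ≤ a i := by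
  classical
  have key : ∃ m M : ℝ, m < M ∧ (∀ k ∉ R, a k ≤ m) ∧ ∀ i ∈ R, M ≤ a i := by
    rcases R.eq_empty_or_nonempty with h0 | h0
    · obtain ⟨m, hm⟩ := (Set.finite_range a).bddAbove
      refine ⟨m, m + 1, by linarith, fun k _ => hm ⟨k, rfl⟩, fun i hi => ?_⟩
      rw [h0] at hi
      simp at hi
    · obtain ⟨i0, hi0, hmin⟩ := R.exists_min_image a h0
      rcases (Finset.univ \ R).eq_empty_or_nonempty with h1 | h1
      · refine ⟨a i0 - 1, a i0, by linarith, fun k hk => ?_, hmin⟩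
        exfalso
        have : k ∈ Finset.univ \ R := by simp [hk]
        rw [h1] at this
        simp at this
      · obtain ⟨k0, hk0, hmax⟩ := (Finset.univ \ R).exists_max_image a h1
        have hk0' : k0 ∉ R := by simpa using hk0
        exact ⟨a k0, a i0, h i0 hi0 k0 hk0', fun k hk => hmax k (by simp [hk]), hmin⟩
  obtain ⟨m, M, hmM, h1, h2⟩ := key
  refine ⟨(m + M) / 2, (M - m) / 2, by linarith, fun k hk => ?_, fun i hi => ?_⟩
  · have := h1 k hk
    linarith
  · have := h2 i hi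
    linarith

/-- the admissible directions -/
def Adm {d n : ℕ} (x : Fin n → V d) (δ : ℝ) (v : Fin n → V d) : Prop :=
  ∃ (e : V d) (R : Finset (Fin n)) (c : ℝ), ‖e‖ = 1 ∧
      (v = fun j => if j ∈ R then e else 0) ∧ (∀ j ∉ R, ⟪e, x j⟫_ℝ ≤ c - δ) ∧
      ∀ j ∈ R, c + δ ≤ ⟪e, x j⟫_ℝ

lemma Adm.mono {d n : ℕ} {x : Fin n → V d} {δ δ' : ℝ} {v : Fin n → V d} (h : Adm x δ v)
    (hd : δ' ≤ δ) : Adm x δ' v := by
  obtain ⟨e, R, c, h1, h2, h3, h4⟩ := h
  exact ⟨e, R, c, h1, h2, fun j hj => (h3 j hj).trans (by linarith),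
    fun j hj => le_trans (by linarith) (h4 j hj)⟩

/-- the vectors with different products span the space -/
lemma span_G {d n : ℕ} (x : Fin n → V d) (hx : x ∉ Diag d n) :
    Submodule.span ℝ {e : V d | ‖e‖ = 1 ∧ ∀ i j, i ≠ j → ⟪e, x i⟫_ℝ ≠ ⟪e, x j⟫_ℝ} = ⊤ := by
  classical
  set G : Set (V d) := {e : V d | ‖e‖ = 1 ∧ ∀ i j, i ≠ j → ⟪e, x i⟫_ℝ ≠ ⟪e, x j⟫_ℝ} with hG
  by_contra hne
  -- finitely many proper subspaces
  let T : Finset (Submodule ℝ (V d)) := insert (Submodule.span ℝ G)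
    (((Finset.univ : Finset (Fin n × Fin n)).filter (fun p => p.1 ≠ p.2)).image
      (fun p => (ℝ ∙ (x p.1 - x p.2))ᗮ))
  have hT : (⊤ : Submodule ℝ (V d)) ∉ T := by
    intro h
    rcases Finset.mem_insert.1 h with h | h
    · exact hne h.symm
    · obtain ⟨p, hp, hp'⟩ := Finset.mem_image.1 h
      have hpne : p.1 ≠ p.2 := (Finset.mem_filter.1 hp).2
      have h1 : x p.1 - x p.2 ∈ (ℝ ∙ (x p.1 - x p.2))ᗮ := by
        rw [hp']; exact Submodule.mem_top
      have h2 := Submodule.mem_orthogonal_singleton_iff_inner_right.1 h1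
      have h3 : x p.1 - x p.2 = 0 := by
        rwa [inner_self_eq_zero] at h2
      exact hx ⟨p.1, p.2, hpne, sub_eq_zero.1 h3⟩
  have hcov := Subspace.biUnion_ne_univ_of_top_notMem hT
  apply hcov
  rw [Set.eq_univ_iff_forall]
  intro e
  simp only [Set.mem_iUnion, SetLike.mem_coe, exists_prop]
  by_cases h0 : e = 0
  · exact ⟨Submodule.span ℝ G, Finset.mem_insert_self _ _, by rw [h0]; exact Submodule.zero_mem _⟩
  by_cases hp : ∃ i j, i ≠ j ∧ ⟪e, x i⟫_ℝ = ⟪e, x j⟫_ℝ
  · obtain ⟨i, j, hij, hE⟩ := hp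
    refine ⟨(ℝ ∙ (x i - x j))ᗮ, Finset.mem_insert_of_mem (Finset.mem_image.2
      ⟨(i, j), Finset.mem_filter.2 ⟨Finset.mem_univ _, hij⟩, rfl⟩), ?_⟩
    rw [Submodule.mem_orthogonal_singleton_iff_inner_left, inner_sub_right, hE, sub_self]
  · push Not at hp
    refine ⟨Submodule.span ℝ G, Finset.mem_insert_self _ _, ?_⟩
    have hn : ‖e‖ ≠ 0 := norm_ne_zero_iff.2 h0
    have h1 : ‖e‖⁻¹ • e ∈ G := by
      refine ⟨?_, fun i j hij => ?_⟩
      · rw [norm_smul, norm_inv, norm_norm, inv_mul_cancel₀ hn]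
      · rw [inner_smul_left, inner_smul_left]
        intro h
        have h2 : (‖e‖⁻¹ : ℝ) ≠ 0 := inv_ne_zero hn
        exact hp i j hij (mul_left_cancel₀ (by simpa using h2) h)
    have h2 : e = ‖e‖ • (‖e‖⁻¹ • e) := by
      rw [smul_smul, mul_inv_cancel₀ hn, one_smul]
    rw [h2]
    exact Submodule.smul_mem _ _ (Submodule.subset_span h1)

theorem pf_DIR : T_DIR := by
  classical
  intro d n x hx
  set A : Set (Fin n → V d) := {v | ∃ δ : ℝ, 0 < δ ∧ Adm x δ v} with hA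
  have hup : ∀ (e : V d) (R : Finset (Fin n)), ‖e‖ = 1 →
      (∀ i ∈ R, ∀ k ∉ R, ⟪e, x k⟫_ℝ < ⟪e, x i⟫_ℝ) → (fun j => if j ∈ R then e else 0) ∈ A := by
    intro e R he hR
    obtain ⟨c, δ, hδ, h1, h2⟩ := gap (fun i => ⟪e, x i⟫_ℝ) R hR
    exact ⟨δ, hδ, e, R, c, he, rfl, h1, h2⟩
  have hspan : Submodule.span ℝ A = ⊤ := by
    -- single vectors
    have hsingle : ∀ (j : Fin n) (u : V d), Pi.single j u ∈ Submodule.span ℝ A := by
      intro j u
      have hle : Submodule.span ℝ {e : V d | ‖e‖ = 1 ∧ ∀ i j, i ≠ j → ⟪e, x i⟫_ℝ ≠ ⟪e, x j⟫_ℝ} ≤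
          (Submodule.span ℝ A).comap (LinearMap.single ℝ (fun _ : Fin n => V d) j) := by
        rw [Submodule.span_le]
        rintro e ⟨he, hE⟩
        rw [SetLike.mem_coe, Submodule.mem_comap]
        set R1 : Finset (Fin n) := Finset.univ.filter (fun i => ⟪e, x j⟫_ℝ ≤ ⟪e, x i⟫_ℝ) with hR1
        set R2 : Finset (Fin n) := Finset.univ.filter (fun i => ⟪e, x j⟫_ℝ < ⟪e, x i⟫_ℝ) with hR2
        have h1 := hup e R1 he (by
          intro i hi k hk
          rw [hR1, Finset.mem_filter] at hi hk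
          push Not at hk
          exact (hk (Finset.mem_univ _)).trans_le hi.2)
        have h2 := hup e R2 he (by
          intro i hi k hk
          rw [hR2, Finset.mem_filter] at hi hk
          push Not at hk
          exact (hk (Finset.mem_univ _)).trans_lt hi.2)
        have h3 : (LinearMap.single ℝ (fun _ : Fin n => V d) j) e =
            (fun i => if i ∈ R1 then e else 0) - (fun i => if i ∈ R2 then e else 0) := by
          ext1 i
          rw [Pi.sub_apply, LinearMap.coe_single]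
          by_cases hij : i = j
          · subst hij
            simp [hR1, hR2]
          · rw [Pi.single_eq_of_ne hij]
            have h4 := hE i j hij
            by_cases h5 : ⟪e, x j⟫_ℝ ≤ ⟪e, x i⟫_ℝ
            · have h6 : ⟪e, x j⟫_ℝ < ⟪e, x i⟫_ℝ := lt_of_le_of_ne h5 (Ne.symm h4)
              simp [hR1, hR2, h5, h6]
            · have h6 : ¬ ⟪e, x j⟫_ℝ < ⟪e, x i⟫_ℝ := fun h => h5 h.le
              simp [hR1, hR2, h5, h6]
        rw [h3]
        exact Submodule.sub_mem _ (Submodule.subset_span h1) (Submodule.subset_span h2)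
      rw [span_G x hx] at hle
      exact hle (Submodule.mem_top (x := u))
    rw [eq_top_iff]
    intro v _
    have h1 : v = ∑ j, Pi.single j (v j) := (Finset.univ_sum_single v).symm
    rw [h1]
    exact Submodule.sum_mem _ fun j _ => hsingle j (v j)
  have hfg : (Submodule.span ℝ A).FG := by
    rw [hspan]
    exact Module.Finite.fg_top
  obtain ⟨D, hDA, hDs⟩ := (Submodule.fg_span_iff_fg_span_finset_subset A).1 hfg
  have hδ : ∃ δ : ℝ, 0 < δ ∧ ∀ v ∈ D, Adm x δ v := by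
    have hDA' : ∀ v ∈ D, v ∈ A := fun v hv => hDA hv
    clear hDA hDs
    induction D using Finset.induction_on with
    | empty => exact ⟨1, one_pos, by simp⟩
    | insert v D _ ih =>
      obtain ⟨δ, h1, h2⟩ := ih fun w hw => hDA' w (Finset.mem_insert_of_mem hw)
      obtain ⟨δ', h3, h4⟩ := hDA' v (Finset.mem_insert_self _ _)
      refine ⟨min δ δ', lt_min h1 h3, fun w hw => ?_⟩
      rcases Finset.mem_insert.1 hw with rfl | hw
      · exact h4.mono (min_le_right _ _)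
      · exact (h2 w hw).mono (min_le_left _ _)
  obtain ⟨δ, h1, h2⟩ := hδ
  exact ⟨D, δ, h1, by rw [← hDs, hspan], h2⟩

end Pool.Agent.H12.LD
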